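import Pool.Agent.Q52.SecY.Above

/-! # Points on `a u ^ g = ∏ F i (x i, z i)`, with the points at infinity -/

set_option autoImplicit false

namespace Pool.Agent.Q52.SecZ

open Polynomial NumberField IsDedekindDomain Pool.Agent.TH120.Sec Pool.Agent.TH377.Sup WithZero
open Pool.Agent.W189.NF (Ov mem_max_iff redMap redMap_eq_zero redMap_surjective)
open Pool.Agent.Q52.SecX (exact_ramification)
open Pool.Agent.Q52.SecY

lemma hom_eval {k : Type*} [Field k] {d : ℕ} (c : Fin (d + 1) → k) (x z : k) (hz : z ≠ 0) :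
    ∑ j : Fin (d + 1), c j * x ^ (j : ℕ) * z ^ (d - j) = z ^ d * (pol c).eval (x / z) := by
  rw [pol, eval_finsetSum, Finset.mul_sum]
  refine Finset.sum_congr rfl fun j _ => ?_
  rw [eval_mul, eval_C, eval_pow, eval_X, div_pow]
  have h1 : z ^ d = z ^ (d - j) * z ^ (j : ℕ) := by
    rw [← pow_add, Nat.sub_add_cancel (by have := j.2; omega)]
  rw [h1]
  field_simp

lemma hom_eval_zero {k : Type*} [Field k] {d : ℕ} (c : Fin (d + 1) → k) (x : k) :
    ∑ j : Fin (d + 1), c j * x ^ (j : ℕ) * (0 : k) ^ (d - j) = c (Fin.last d) * x ^ d := by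
  rw [Finset.sum_eq_single (Fin.last d)]
  · simp
  · intro j _ hj
    have h1 : d - (j : ℕ) ≠ 0 := by
      have h2 := j.2
      have h3 : (j : ℕ) ≠ d := fun h => hj (Fin.ext (by rw [h, Fin.val_last]))
      omega
    rw [zero_pow h1, mul_zero]
  · intro h
    exact absurd (Finset.mem_univ _) h

variable {A k : Type*} [CommRing A] [IsDomain A] [IsDiscreteValuationRing A] [Field k]
  [Algebra A k] [IsFractionRing A k]

/-- no solutions of `a w ^ n = ∏ c i` if all `c i` have valuation divisible by `ℓ` -/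
theorem no_sol_gen (ϖ : A) (hϖ : Irreducible ϖ) {ι : Type*} [Fintype ι] (c : ι → k) (ℓ : ℕ)
    (hc : ∀ i, ∃ j : ℤ, OrdIs ϖ (c i) (ℓ * j)) (a : k) (m : ℤ)
    (ha : OrdIs ϖ a m) (hm : ¬ (ℓ : ℤ) ∣ m) (n : ℕ) (hn : ℓ ∣ n) (hn0 : n ≠ 0) (w : k) :
    a * w ^ n ≠ ∏ i, c i := by
  classical
  intro h
  have h1 : ∀ s : Finset ι, ∃ j : ℤ, OrdIs ϖ (∏ i ∈ s, c i) (ℓ * j) := by
    intro s
    induction s using Finset.induction_on with
    | empty => exact ⟨0, by simpa using OrdIs.one (k := k) ϖ⟩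
    | insert i s hi ih =>
      obtain ⟨j, hj⟩ := ih
      obtain ⟨j', hj'⟩ := hc i
      refine ⟨j' + j, ?_⟩
      rw [Finset.prod_insert hi, mul_add]
      exact hj'.mul hϖ hj
  obtain ⟨j, hj⟩ := h1 Finset.univ
  rw [← h] at hj
  have hw : w ≠ 0 := by
    rintro rfl
    rw [zero_pow hn0, mul_zero] at hj
    obtain ⟨u, hu⟩ := hj
    exact mul_ne_zero (u.isUnit.map (algebraMap A k)).ne_zero
      (zpow_ne_zero _ (uniz_ne ϖ hϖ)) hu.symm
  obtain ⟨s, hs⟩ := OrdIs.exists hϖ hw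
  have h2 := (ha.mul hϖ (hs.pow hϖ n)).unique hϖ hj
  obtain ⟨n', rfl⟩ := hn
  apply hm
  refine ⟨j - n' * s, ?_⟩
  push_cast at h2
  linear_combination h2

end Pool.Agent.Q52.SecZ

namespace Pool.Agent.Q52.SecZ

open Polynomial NumberField IsDedekindDomain Pool.Agent.TH120.Sec Pool.Agent.TH377.Sup WithZero
open Pool.Agent.W189.NF (Ov mem_max_iff redMap redMap_eq_zero redMap_surjective)
open Pool.Agent.Q52.SecX (exact_ramification)
open Pool.Agent.Q52.SecY

variable {K L : Type} [Field K] [NumberField K] [Field L] [NumberField L] [Algebra K L]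

/-- **no points over the completion `L_w`**, also at infinity -/
theorem no_point_hom {r : ℕ} (d : Fin r → ℕ) (v : HeightOneSpectrum (𝓞 K))
    (w : HeightOneSpectrum (𝓞 L)) [w.asIdeal.LiesOver v.asIdeal] (y : Idx d → 𝓞 K)
    (hy : (fun o => Ideal.Quotient.mk (v.asIdeal ^ 2) (y o)) ∈ GoodM v d) (ℓ : ℕ)
    (hd : ∀ i, ℓ ∣ d i) (hram : ¬ ℓ ∣ v.asIdeal.ramificationIdx' w.asIdeal)
    (hin : ∀ i, ¬ d i ∣ v.asIdeal.inertiaDeg' w.asIdeal)
    (n : ℕ) (hn : ℓ ∣ n) (hn0 : n ≠ 0) (x t : Fin r → w.adicCompletion L)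
    (hxt : ∀ i, x i ≠ 0 ∨ t i ≠ 0) (z : w.adicCompletion L) :
    algebraMap L (w.adicCompletion L) (algebraMap K L (algebraMap (𝓞 K) K (y none))) * z ^ n ≠
      ∏ i, ∑ j : Fin (d i + 1), algebraMap L (w.adicCompletion L) (algebraMap K L
        (algebraMap (𝓞 K) K (y (some ⟨i, j⟩)))) * x i ^ (j : ℕ) * t i ^ (d i - j) := by
  classical
  obtain ⟨h1, h2, h3⟩ := good_iff' v d y hy
  have hvp : v.asIdeal.IsPrime := v.isPrime
  have hvm : v.asIdeal.IsMaximal := v.isMaximal
  have hwp : w.asIdeal.IsPrime := w.isPrime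
  have hwm : w.asIdeal.IsMaximal := w.isMaximal
  have hover : v.asIdeal = w.asIdeal.under (𝓞 K) := Ideal.LiesOver.over
  have hmem : ∀ x : 𝓞 K, algebraMap (𝓞 K) (𝓞 L) x ∈ w.asIdeal ↔ x ∈ v.asIdeal := by
    intro x
    rw [hover]
    rfl
  let _ : Field (𝓞 K ⧸ v.asIdeal) := Ideal.Quotient.field _
  let _ : Field (𝓞 L ⧸ w.asIdeal) := Ideal.Quotient.field _
  have hfinv : Finite (𝓞 K ⧸ v.asIdeal) := Ideal.finiteQuotientOfFreeOfNeBot _ v.ne_bot
  have hfinw : Finite (𝓞 L ⧸ w.asIdeal) := Ideal.finiteQuotientOfFreeOfNeBot _ w.ne_bot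
  have hmf : Module.Finite (𝓞 K ⧸ v.asIdeal) (𝓞 L ⧸ w.asIdeal) := Module.Finite.of_finite
  obtain ⟨π0, hπ0⟩ := w.intValuation_exists_uniformizer
  set ϖ : Ov w := algebraMap (𝓞 L) (Ov w) π0 with hϖdef
  have hϖv : Valued.v (ϖ : w.adicCompletion L) = exp (-((1 : ℕ) : ℤ)) := by
    rw [hϖdef, valued_Ov, hπ0]
    norm_num
  have hϖ : Irreducible ϖ := irreducible_of_valued w ϖ hϖv
  let j : 𝓞 K →+* Ov w := (algebraMap (𝓞 L) (Ov w)).comp (algebraMap (𝓞 K) (𝓞 L))
  have hcoe : ∀ b : 𝓞 K, ((j b : Ov w) : w.adicCompletion L) =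
      algebraMap L (w.adicCompletion L) (algebraMap K L (algebraMap (𝓞 K) K b)) := by
    intro b
    have e1 : ((j b : Ov w) : w.adicCompletion L) =
        algebraMap L (w.adicCompletion L) (algebraMap (𝓞 L) L (algebraMap (𝓞 K) (𝓞 L) b)) := by
      rw [HeightOneSpectrum.algebraMap_adicCompletion]
      rfl
    rw [e1]
    congr 1
  have hred : ∀ b : 𝓞 K, IsLocalRing.residue (Ov w) (j b) = resEquiv w
      (algebraMap (𝓞 K ⧸ v.asIdeal) (𝓞 L ⧸ w.asIdeal) (Ideal.Quotient.mk v.asIdeal b)) := by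
    intro b
    have e1 : algebraMap (𝓞 K ⧸ v.asIdeal) (𝓞 L ⧸ w.asIdeal) (Ideal.Quotient.mk v.asIdeal b) =
        Ideal.Quotient.mk w.asIdeal (algebraMap (𝓞 K) (𝓞 L) b) := rfl
    rw [e1, resEquiv_mk]
    rfl
  have hunit : ∀ b : 𝓞 K, b ∉ v.asIdeal → IsUnit (j b) := by
    intro b hb
    by_contra h
    have h4 : j b ∈ IsLocalRing.maximalIdeal (Ov w) := (IsLocalRing.mem_maximalIdeal _).2 h
    rw [← IsLocalRing.residue_eq_zero_iff] at h4
    apply hb
    rw [← hmem]
    exact (redMap_eq_zero w _).1 h4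
  have hinj : Function.Injective j := (FaithfulSMul.algebraMap_injective (𝓞 L) (Ov w)).comp
    (FaithfulSMul.algebraMap_injective (𝓞 K) (𝓞 L))
  have hlast : ∀ i, y (some ⟨i, Fin.last (d i)⟩) ≠ 0 := by
    intro i h
    apply (h3 i).1
    rw [h]
    exact zero_mem _
  have hdeg : ∀ i, (pol fun j => y (some ⟨i, j⟩)).natDegree = d i := fun i =>
    pol_natDegree (fun j => y (some ⟨i, j⟩)) (hlast i)
  obtain ⟨hb2, hb2'⟩ := exact_ramification v w (y none) (by rwa [pow_one]) h2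
  have hord : OrdIs ϖ ((j (y none) : Ov w) : w.adicCompletion L)
      ((v.asIdeal.ramificationIdx' w.asIdeal : ℕ) : ℤ) := by
    apply ordIs_of_valued w ϖ hϖv
    change Valued.v ((algebraMap (𝓞 L) (Ov w) (algebraMap (𝓞 K) (𝓞 L) (y none)) : Ov w) :
      w.adicCompletion L) = _
    rw [valued_Ov]
    exact intVal_eq w _ _ hb2 hb2'
  have hroot : ∀ i (b : Ov w), ((pol fun l => y (some ⟨i, l⟩)).map j).eval b ∉
      IsLocalRing.maximalIdeal (Ov w) := by
    intro i b hb
    set p : (𝓞 K ⧸ v.asIdeal)[X] :=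
      (pol fun l => y (some ⟨i, l⟩)).map (Ideal.Quotient.mk v.asIdeal) with hp
    have hpirr : Irreducible p := (h3 i).2
    have hpdeg : p.natDegree = d i := by
      rw [hp, natDegree_map_of_leadingCoeff_ne_zero, hdeg]
      rw [pol_leadingCoeff (fun j => y (some ⟨i, j⟩)) (hlast i)]
      exact fun h => (h3 i).1 (Ideal.Quotient.eq_zero_iff_mem.1 h)
    set s := (resEquiv w).symm (IsLocalRing.residue (Ov w) b) with hs
    have hr' : aeval s p = 0 := by
      apply (resEquiv w).injective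
      rw [map_zero]
      have e2 : ((resEquiv w : (𝓞 L ⧸ w.asIdeal) →+* _).comp
          (algebraMap (𝓞 K ⧸ v.asIdeal) (𝓞 L ⧸ w.asIdeal))).comp
          (Ideal.Quotient.mk v.asIdeal) = (IsLocalRing.residue (Ov w)).comp j := by
        ext b
        exact (hred b).symm
      rw [← IsLocalRing.residue_eq_zero_iff, ← eval₂_at_apply] at hb
      rw [eval₂_map, ← e2] at hb
      have e3 : IsLocalRing.residue (Ov w) b = (resEquiv w : (𝓞 L ⧸ w.asIdeal) →+* _) s := by
        rw [hs]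
        exact ((resEquiv w).apply_symm_apply _).symm
      rw [e3, ← eval₂_map, ← hom_eval₂] at hb
      exact hb
    have hint : IsIntegral (𝓞 K ⧸ v.asIdeal) s := Algebra.IsIntegral.isIntegral s
    have h1 : minpoly (𝓞 K ⧸ v.asIdeal) s ∣ p := minpoly.dvd _ s hr'
    have h2 : Associated (minpoly (𝓞 K ⧸ v.asIdeal) s) p :=
      (minpoly.irreducible hint).associated_of_dvd hpirr h1
    have h3 : (minpoly (𝓞 K ⧸ v.asIdeal) s).natDegree = d i := by
      rw [natDegree_eq_of_degree_eq (degree_eq_degree_of_associated h2), hpdeg]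
    have h4 := minpoly.degree_dvd hint
    rw [h3] at h4
    apply hin i
    rw [Ideal.inertiaDeg'_algebraMap]
    exact h4
  have hlc : ∀ i, IsUnit ((pol fun l => y (some ⟨i, l⟩)).map j).leadingCoeff := by
    intro i
    rw [leadingCoeff_map_of_injective hinj,
      pol_leadingCoeff (fun j => y (some ⟨i, j⟩)) (hlast i)]
    exact hunit _ (h3 i).1
  have e2 : ∀ i (s : w.adicCompletion L), (((pol fun l => y (some ⟨i, l⟩)).map j).map
      (algebraMap (Ov w) (w.adicCompletion L))).eval s =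
        (pol fun l => algebraMap L (w.adicCompletion L) (algebraMap K L
        (algebraMap (𝓞 K) K (y (some ⟨i, l⟩))))).eval s := by
    intro i s
    rw [Polynomial.map_map, pol_map]
    congr 1
  have key := no_sol_gen ϖ hϖ (fun i => ∑ l : Fin (d i + 1), algebraMap L (w.adicCompletion L)
        (algebraMap K L (algebraMap (𝓞 K) K (y (some ⟨i, l⟩)))) * x i ^ (l : ℕ) *
          t i ^ (d i - l)) ℓ (by
      intro i
      change ∃ m : ℤ, OrdIs ϖ (∑ l : Fin (d i + 1), algebraMap L (w.adicCompletion L)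
        (algebraMap K L (algebraMap (𝓞 K) K (y (some ⟨i, l⟩)))) * x i ^ (l : ℕ) *
          t i ^ (d i - l)) (ℓ * m)
      obtain ⟨q, hq⟩ := hd i
      by_cases ht : t i = 0
      · rw [ht, hom_eval_zero]
        have hx : x i ≠ 0 := by
          rcases hxt i with h | h
          · exact h
          · exact absurd ht h
        obtain ⟨s, hs⟩ := OrdIs.exists (A := Ov w) hϖ hx
        have h4 : OrdIs ϖ (algebraMap L (w.adicCompletion L) (algebraMap K L
            (algebraMap (𝓞 K) K (y (some ⟨i, Fin.last (d i)⟩))))) 0 := by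
          rw [← hcoe]
          exact OrdIs.of_unit ϖ _ (hunit _ (h3 i).1)
        have h5 := h4.mul hϖ (hs.pow hϖ (d i))
        refine ⟨q * s, ?_⟩
        have e : (ℓ : ℤ) * (q * s) = 0 + (d i : ℕ) * s := by
          rw [zero_add]
          conv_rhs => rw [hq]
          push_cast
          ring
        rw [e]
        exact h5
      · rw [hom_eval _ _ _ ht]
        obtain ⟨s, hs⟩ := OrdIs.exists (A := Ov w) hϖ ht
        obtain ⟨m, hm⟩ := eval_ord ϖ hϖ ((pol fun l => y (some ⟨i, l⟩)).map j) (hlc i) ℓ (by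
          rw [natDegree_map_eq_of_injective hinj, hdeg]
          exact hd i) (hroot i) (x i / t i)
        rw [e2] at hm
        refine ⟨q * s + m, ?_⟩
        have e : (ℓ : ℤ) * (q * s + m) = (d i : ℕ) * s + ℓ * m := by
          conv_rhs => rw [hq]
          push_cast
          ring
        rw [e]
        exact (hs.pow hϖ (d i)).mul hϖ hm) _ _ hord (by
      intro h
      exact hram (by exact_mod_cast h)) n hn hn0 z
  intro h
  apply key
  rw [hcoe, h]

end Pool.Agent.Q52.SecZ
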