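import Pool.Agent.Q52.SecZ.Hom
import Pool.Agent.Q52.SecZ.Ram

/-! # Degrees and discriminants of the points of almost all cyclic covers -/

set_option autoImplicit false

namespace Pool.Agent.Q52.SecZ

open Polynomial NumberField IsDedekindDomain Pool.Agent.TH120.Sec Pool.Agent.TH377.Sup
open Pool.Agent.Q52.SecY

variable {K L : Type} [Field K] [NumberField K] [Field L] [NumberField L] [Algebra K L]

/-- a point over `L` of `a u ^ n = ∏ F i (x i, t i)` -/
def Pt (n : ℕ) {r : ℕ} {d : Fin r → ℕ} (y : Idx d → 𝓞 K) (E : Type) [Field E] (φ : K →+* E) :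
    Prop :=
  ∃ (x t : Fin r → E) (u : E), (∀ i, x i ≠ 0 ∨ t i ≠ 0) ∧
    φ (algebraMap (𝓞 K) K (y none)) * u ^ n = ∏ i, ∑ j : Fin (d i + 1),
      φ (algebraMap (𝓞 K) K (y (some ⟨i, j⟩))) * x i ^ (j : ℕ) * t i ^ (d i - j)

/-- the primes above a good prime -/
theorem place {r : ℕ} (d : Fin r → ℕ) (y : Idx d → 𝓞 K) (n : ℕ) (hn0 : n ≠ 0)
    (hpt : Pt n y L (algebraMap K L)) (g : ℕ) (hgn : g ∣ n)
    (hgd : ∀ i, g ∣ d i) (v : HeightOneSpectrum (𝓞 K))
    (hv : (fun o => Ideal.Quotient.mk (v.asIdeal ^ 2) (y o)) ∈ GoodM v d)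
    (w : HeightOneSpectrum (𝓞 L)) (hw : w.asIdeal.LiesOver v.asIdeal) :
    g ∣ v.asIdeal.ramificationIdx' w.asIdeal ∨ ∃ i, d i ∣ v.asIdeal.inertiaDeg' w.asIdeal := by
  obtain ⟨x, t, u, hxt, h⟩ := hpt
  by_contra hcon
  rw [not_or, not_exists] at hcon
  have hinj : Function.Injective (algebraMap L (w.adicCompletion L)) :=
    (algebraMap L (w.adicCompletion L)).injective
  refine no_point_hom d v w y hv g hgd hcon.1 hcon.2 n hgn hn0
    (fun i => algebraMap L (w.adicCompletion L) (x i))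
    (fun i => algebraMap L (w.adicCompletion L) (t i)) (fun i => ?_)
    (algebraMap L (w.adicCompletion L) u) ?_
  · rcases hxt i with h1 | h1
    · exact Or.inl (by rwa [Ne, map_eq_zero_iff _ hinj])
    · exact Or.inr (by rwa [Ne, map_eq_zero_iff _ hinj])
  · rw [← map_pow, ← map_mul, h, map_prod]
    refine Finset.prod_congr rfl fun i _ => ?_
    rw [map_sum]
    refine Finset.sum_congr rfl fun j _ => ?_
    rw [map_mul, map_mul, map_pow, map_pow]

set_option linter.deprecated false in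
/-- the degrees and the discriminants -/
theorem deg_disc {r : ℕ} (d : Fin r → ℕ) (y : Idx d → 𝓞 K) (n : ℕ) (hn0 : n ≠ 0)
    (hpt : Pt n y L (algebraMap K L)) (g : ℕ) (hg : 2 ≤ g) (hgn : g ∣ n)
    (hgd : ∀ i, g ∣ d i) (T : Finset (HeightOneSpectrum (𝓞 K))) (hT0 : T.Nonempty)
    (hT : ∀ v ∈ T, (fun o => Ideal.Quotient.mk (v.asIdeal ^ 2) (y o)) ∈ GoodM v d) :
    g ∣ Module.finrank K L ∧ ((∀ i, Module.finrank K L < d i) →
      Real.log 2 / 2 * T.card ≤
        Real.log |(discr L : ℝ)| / Module.finrank K L - Real.log |(discr K : ℝ)|) := by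
  have hplace := fun v (hv : v ∈ T) w hw => place d y n hn0 hpt g hgn hgd v (hT v hv) w hw
  refine ⟨?_, fun hlt => ?_⟩
  · obtain ⟨v, hv⟩ := hT0
    exact dvd_finrankM g d hgd v (fun w hw => hplace v hv w hw)
  · have h1 := logDisc_ge (k := K) (L := L) T g (by omega) (by
      intro v hv w hw
      have hvm : v.asIdeal.IsMaximal := v.isMaximal
      have hwp : w.asIdeal.IsPrime := w.isPrime
      rw [← Ideal.ramificationIdx'_eq_ramificationIdx v.asIdeal w.asIdeal v.ne_bot]
      have h2 : v.asIdeal.ramificationIdx' w.asIdeal ≠ 0 :=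
        Ideal.IsDedekindDomain.ramificationIdx'_ne_zero_of_liesOver _ v.ne_bot
      rcases hplace v hv w hw with h3 | ⟨i, h3⟩
      · exact Nat.le_of_dvd (Nat.pos_of_ne_zero h2) h3
      · exfalso
        have hnz : NoZeroSMulDivisors (𝓞 K) (𝓞 L) := ⟨fun {a b} h => by
          rw [Algebra.smul_def, mul_eq_zero] at h
          exact h.imp_left fun h => (map_eq_zero_iff _
            (FaithfulSMul.algebraMap_injective (𝓞 K) (𝓞 L))).1 h⟩
        have h4 : v.asIdeal.inertiaDeg' w.asIdeal ≤ Module.finrank K L :=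
          Ideal.inertiaDeg_le_finrank (𝓞 L) K L w.asIdeal v.ne_bot
        have h5 : 0 < v.asIdeal.inertiaDeg' w.asIdeal := Ideal.inertiaDeg'_pos _ _
        have h6 := Nat.le_of_dvd h5 h3
        have h7 := hlt i
        omega)
    refine le_trans ?_ h1
    have hgr : (2 : ℝ) ≤ g := by exact_mod_cast hg
    have h8 : (1 / 2 : ℝ) ≤ 1 - 1 / (g : ℝ) := by
      have h9 : 1 / (g : ℝ) ≤ 1 / 2 := one_div_le_one_div_of_le (by norm_num) hgr
      linarith
    have h10 : Real.log 2 * T.card ≤ ∑ v ∈ T, Real.log (Ideal.absNorm v.asIdeal) := by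
      rw [mul_comm, ← nsmul_eq_mul]
      refine Finset.card_nsmul_le_sum T _ _ fun v _ => ?_
      refine Real.log_le_log (by norm_num) ?_
      exact_mod_cast two_le_norm v
    have h11 : 0 ≤ ∑ v ∈ T, Real.log (Ideal.absNorm v.asIdeal) :=
      Finset.sum_nonneg fun v _ => Real.log_natCast_nonneg _
    calc Real.log 2 / 2 * T.card = 1 / 2 * (Real.log 2 * T.card) := by ring
      _ ≤ 1 / 2 * ∑ v ∈ T, Real.log (Ideal.absNorm v.asIdeal) := by gcongr
      _ ≤ _ := mul_le_mul_of_nonneg_right h8 h11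

end Pool.Agent.Q52.SecZ
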